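import Mathlib
import Pool.Agent.H10.PI

namespace Pool.Agent.Results.MP_e0d88d_al.Two

/-- `A` (associative, non-unital) satisfies a nonzero noncommutative polynomial with zero
constant term; the polynomial is evaluated in the unitization of `A`. -/
def IsPI (F A : Type) [Field F] [NonUnitalRing A] [Module F A] [IsScalarTower F A A]
    [SMulCommClass F A A] : Prop :=
  ∃ (n : ℕ) (f : FreeAlgebra F (Fin n)), f ≠ 0 ∧ FreeAlgebra.algebraMapInv f = 0 ∧
    ∀ a : Fin n → A, FreeAlgebra.lift F (fun i => (a i : Unitization F A)) f = 0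

variable {F A : Type} [Field F] [NonUnitalRing A] [Module F A] [IsScalarTower F A A]
    [SMulCommClass F A A]

theorem comp {ι R S : Type} [Ring R] [Algebra F R] [Ring S] [Algebra F S] (φ : R →ₐ[F] S)
    (r : ι → R) (f : FreeAlgebra F ι) :
    φ (FreeAlgebra.lift F r f) = FreeAlgebra.lift F (fun i => φ (r i)) f :=
  AlgHom.congr_fun (show φ.comp (FreeAlgebra.lift F r) = FreeAlgebra.lift F fun i => φ (r i) by
    ext; simp) f

theorem unit (h : IsPI F A) : ∃ (ι : Type) (g : FreeAlgebra F ι), g ≠ 0 ∧
    ∀ r : ι → Unitization F A, FreeAlgebra.lift F r g = 0 := by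
  obtain ⟨n, f, h0, -, h⟩ := h
  let X := FreeAlgebra.ι F (X := Fin n ⊕ Bool)
  refine ⟨Fin n ⊕ Bool, FreeAlgebra.lift F (fun i =>
    (X (.inr true) * X (.inr false) - X (.inr false) * X (.inr true)) * X (.inl i)) f,
    fun e => h0 ?_, fun r => ?_⟩
  · let C := FreeAlgebra F (Fin n)
    let r : Fin n ⊕ Bool → Matrix (Fin 2) (Fin 2) C := Sum.elim
      (fun i => !![FreeAlgebra.ι F i, 0; 0, -FreeAlgebra.ι F i])
      fun b => if b then !![0, 1; 0, 0] else !![0, 0; 1, 0]
    have e1 := congrArg (FreeAlgebra.lift F r) e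
    have e2 := comp (Matrix.scalarAlgHom (Fin 2) F (α := C)) (FreeAlgebra.ι F) f
    rw [comp, map_zero] at e1
    rw [show (fun i => Matrix.scalarAlgHom (Fin 2) F (α := C) (FreeAlgebra.ι F i)) = _ from ?_,
      e1] at e2
    · rw [show FreeAlgebra.lift F (FreeAlgebra.ι F) = AlgHom.id F C from
        FreeAlgebra.lift_comp_ι (AlgHom.id F C)] at e2
      simpa [C] using congrFun (congrFun e2 0) 0
    · ext i a b
      fin_cases a <;> fin_cases b <;> simp [X, r, Matrix.mul_apply, C]
  · rw [comp, ← h fun i => ((r (.inr true) * r (.inr false) - r (.inr false) * r (.inr true)) *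
      r (.inl i)).snd]
    congr 2
    ext1 i
    ext
    · simp [X, sub_eq_add_neg, mul_comm]
    · simp [X]

theorem sub {T : Type} [Ring T] [Algebra F T] [Nontrivial T] (B : NonUnitalSubalgebra F T) {n : ℕ}
    (f : FreeAlgebra F (Fin n)) (h0 : f ≠ 0) (h : ∀ r : Fin n → T, FreeAlgebra.lift F r f = 0) :
    IsPI F B := by
  have h1 : FreeAlgebra.algebraMapInv f = 0 := by
    have := comp (Algebra.ofId F T) 0 f
    simp only [Pi.zero_apply, map_zero, h] at this
    exact (map_eq_zero _).1 this
  refine ⟨n, f, h0, h1, fun a => ?_⟩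
  have h2 : (FreeAlgebra.lift F (fun i => (a i : Unitization F B)) f).fst = 0 := by
    have := comp (Unitization.fstHom F B) (fun i => (a i : Unitization F B)) f
    exact this.trans h1
  have h3 := comp (Unitization.lift (NonUnitalSubalgebraClass.subtype B))
    (fun i => (a i : Unitization F B)) f
  rw [h] at h3
  ext
  · exact h2
  · simpa [h2] using h3

theorem result (F A : Type) [Field F] [NonUnitalRing A] [Module F A] [IsScalarTower F A A]
    [SMulCommClass F A A] (hfg : ∃ s : Finset A, NonUnitalAlgebra.adjoin F (s : Set A) = ⊤)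
    (hA : IsPI F A) :
    ∃ (B : Type) (_ : NonUnitalRing B) (_ : Module F B) (_ : IsScalarTower F B B)
      (_ : SMulCommClass F B B), (∃ x y : B, NonUnitalAlgebra.adjoin F {x, y} = ⊤) ∧ IsPI F B ∧
      ∃ φ : A →ₙₐ[F] B, Function.Injective φ := by
  obtain ⟨s, hs⟩ := hfg
  obtain ⟨ι, g, hg, h⟩ := unit hA
  let l := s.toList
  let m := l.length
  let R := Unitization F A
  let T := Matrix (Fin (m + 1)) (Fin (m + 1)) R
  obtain ⟨n, f, h0, hf⟩ := H10.PI.regev (Matrix (Fin (m + 1)) (Fin (m + 1)) F) g hg h
  have hT : ∀ r : Fin n → T, FreeAlgebra.lift F r f = 0 := fun r =>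
    (matrixEquivTensor (Fin (m + 1)) F R).injective
      ((comp (matrixEquivTensor (Fin (m + 1)) F R).toAlgHom r f).trans (by rw [hf, map_zero]))
  let v : ℕ → R := fun k => if k = m then 1 else (l.getD k 0 : A)
  let Y : ℕ → T := fun k => .of fun i j => if j = 0 then v (i + k) else 0
  let x : T := .of fun i j => if (j : ℕ) = i + 1 then 1 else 0
  have hv : ∀ k, m < k → v k = 0 := fun k hk => by
    simp [v, hk.ne', List.getD, List.getElem?_eq_none hk.le]
  have hx : ∀ k, x * Y k = Y (k + 1) := fun k => by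
    ext1 i j
    simp only [x, Y, T, Matrix.mul_apply, Matrix.of_apply, ite_mul, one_mul, zero_mul]
    by_cases hi : (i : ℕ) < m
    · rw [Finset.sum_eq_single ⟨i + 1, by omega⟩ (fun b _ hb => if_neg fun e => hb (Fin.ext e))
        (by simp), if_pos rfl, add_assoc, add_comm 1]
    · rw [Finset.sum_eq_zero fun b _ => if_neg (by omega), hv _ (by omega), ite_self]
  let B := NonUnitalAlgebra.adjoin F {x, Y 0}
  have hxB : x ∈ B := NonUnitalAlgebra.subset_adjoin F (by simp)
  have hY : ∀ k, Y k ∈ B := fun k => by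
    induction k with
    | zero => exact NonUnitalAlgebra.subset_adjoin F (by simp)
    | succ k ih => exact hx k ▸ mul_mem hxB ih
  let ψ : A →ₙₐ[F] T :=
    { toFun := fun a => Matrix.single 0 0 (a : R)
      map_smul' := fun c a => by simp [R, T]
      map_zero' := by simp [R]
      map_add' := fun a b => by simp [R, Matrix.single_add]
      map_mul' := fun a b => by simp [R, T] }
  have hψ : ∀ a, ψ a ∈ B := by
    intro a
    have : NonUnitalAlgebra.adjoin F (s : Set A) ≤ B.comap ψ := by
      refine NonUnitalAlgebra.adjoin_le fun a ha => ?_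
      obtain ⟨k, hk, rfl⟩ := List.getElem_of_mem (Finset.mem_toList.2 ha)
      have e : Y m = Matrix.single 0 0 1 := by
        ext1 i j
        by_cases hi : i = 0
        · simp [Y, v, hi, Matrix.single, eq_comm]
        · simp [Y, hv (i + m) (by have := Fin.pos_iff_ne_zero.2 hi; omega), Matrix.single, Ne.symm hi]
      have : ψ l[k] = Y m * Y k := by
        rw [e]
        ext1 i j
        by_cases hi : i = 0
        · have : (l[k] : R) = v k := by
            simp only [v]
            rw [if_neg hk.ne, List.getD_eq_getElem]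
          rw [hi, Matrix.single_mul_apply_same]
          simp [ψ, Y, this, Matrix.single, eq_comm]
        · simp [ψ, T, Matrix.single, Matrix.mul_apply, Ne.symm hi]
      exact (this ▸ mul_mem (hY m) (hY k) :)
    exact this (hs ▸ trivial)
  refine ⟨B, _, _, inferInstance, inferInstance, ⟨⟨x, hxB⟩, ⟨Y 0, hY 0⟩, ?_⟩, sub B f h0 hT,
    NonUnitalAlgHom.codRestrict ψ B hψ, fun a b e => ?_⟩
  · refine NonUnitalSubalgebra.map_injective (f := NonUnitalSubalgebraClass.subtype B)
      Subtype.val_injective ?_
    rw [NonUnitalAlgHom.map_adjoin, NonUnitalAlgebra.map_top, NonUnitalSubalgebra.range_val]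
    simp [Set.image_pair, B]
  · simpa [ψ, R] using congrFun (congrFun (congrArg Subtype.val e) 0) 0

end Pool.Agent.Results.MP_e0d88d_al.Two
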